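import Pool.Agent.Run7.h991.MU.Iface

/-! # MU (helper991), pieces CHORD and LPR (helper24) -/

set_option autoImplicit false

namespace H991.MU

theorem t_CHORD : S_CHORD := by
  intro A hA x₀ y₀ h hx0 hh hhy
  obtain ⟨_, hhom, hsup⟩ := hA
  have hconc : ∀ lam y y' : ℝ, 0 ≤ lam → lam ≤ 1 → 0 < y → 0 < y' →
      lam * A x₀ y + (1 - lam) * A x₀ y' ≤ A x₀ (lam * y + (1 - lam) * y') := by
    intro lam y y' h0 h1 hy hy'
    rcases h0.eq_or_lt with h0 | h0
    · rw [← h0]; simp
    rcases h1.eq_or_lt with h1 | h1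
    · rw [h1]; simp
    have hl : 0 < 1 - lam := by linarith
    have e := hsup (lam * x₀) (lam * y) ((1 - lam) * x₀) ((1 - lam) * y') (by positivity) (by positivity)
      (by positivity) (by positivity)
    rw [hhom lam x₀ y h0 hx0 hy, hhom (1 - lam) x₀ y' hl hx0 hy',
      show lam * x₀ + (1 - lam) * x₀ = x₀ by ring] at e
    exact e
  refine ⟨((A x₀ (y₀ + h) + A x₀ (y₀ - h)) / 2 - (A x₀ (y₀ + h) - A x₀ (y₀ - h)) / (2 * h) * y₀) / x₀,
    (A x₀ (y₀ + h) - A x₀ (y₀ - h)) / (2 * h), ?_, ?_⟩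
  · unfold D2
    field_simp
    ring
  · intro x y hx hy hxy
    obtain ⟨h1, h2⟩ := abs_le.1 hxy
    obtain ⟨y', hy'⟩ : ∃ y', y' = x₀ * y / x := ⟨_, rfl⟩
    rw [← hy'] at h1 h2
    have hy'0 : 0 < y' := by rw [hy']; positivity
    obtain ⟨lam, hlam⟩ : ∃ lam, lam = (y' - (y₀ - h)) / (2 * h) := ⟨_, rfl⟩
    have l0 : 0 ≤ lam := by rw [hlam]; apply div_nonneg <;> linarith
    have l1 : lam ≤ 1 := by rw [hlam, div_le_one (by linarith)]; linarith
    have ey : lam * (y₀ + h) + (1 - lam) * (y₀ - h) = y' := by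
      rw [hlam]; field_simp; ring
    have hc := hconc lam (y₀ + h) (y₀ - h) l0 l1 (by linarith) (by linarith)
    rw [ey] at hc
    have eA : A x y = x / x₀ * A x₀ y' := by
      rw [← hhom (x / x₀) x₀ y' (by positivity) hx0 hy'0]
      congr 1
      · field_simp
      · rw [hy']; field_simp
    rw [eA]
    have e3 : ((A x₀ (y₀ + h) + A x₀ (y₀ - h)) / 2 - (A x₀ (y₀ + h) - A x₀ (y₀ - h)) / (2 * h) * y₀) / x₀ * x +
        (A x₀ (y₀ + h) - A x₀ (y₀ - h)) / (2 * h) * y =
        x / x₀ * (lam * A x₀ (y₀ + h) + (1 - lam) * A x₀ (y₀ - h)) := by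
      rw [hlam, hy']
      field_simp
      ring
    rw [e3]
    exact mul_le_mul_of_nonneg_left hc (by positivity)

theorem prod_ge_factorial (S : Finset ℕ) (hS : ∀ s ∈ S, 1 ≤ s) : (S.card).factorial ≤ ∏ s ∈ S, s := by
  classical
  induction S using Finset.induction_on_max with
  | empty => simp
  | insert a s hmax ih =>
    have hna : a ∉ s := fun h => lt_irrefl _ (hmax a h)
    rw [Finset.card_insert_of_notMem hna, Finset.prod_insert hna, Nat.factorial_succ]
    apply Nat.mul_le_mul
    · have h1 : s ⊆ Finset.Ico 1 a := by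
        intro x hx
        exact Finset.mem_Ico.2 ⟨hS x (Finset.mem_insert_of_mem hx), hmax x hx⟩
      have h2 := Finset.card_le_card h1
      rw [Nat.card_Ico] at h2
      have h3 := hS a (Finset.mem_insert_self a s)
      omega
    · exact ih (fun x hx => hS x (Finset.mem_insert_of_mem hx))

theorem t_LPR : S_LPR := by
  classical
  intro B i hi
  set L := (B.erase i).filter (fun j => j < i) with hL
  set U := (B.erase i).filter (fun j => ¬ j < i) with hU
  have hUi : ∀ j ∈ U, i < j := by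
    intro j hj
    obtain ⟨h1, h2⟩ := Finset.mem_filter.1 hj
    have := (Finset.mem_erase.1 h1).1
    omega
  have hLi : ∀ j ∈ L, j < i := fun j hj => (Finset.mem_filter.1 hj).2
  have hcard : L.card + U.card = B.card - 1 := by
    rw [hL, hU, Finset.card_filter_add_card_filter_not, Finset.card_erase_of_mem hi]
  have pL : (L.card.factorial : ℝ) ≤ ∏ j ∈ L, |(i : ℝ) - (j : ℝ)| := by
    have e1 : ∏ j ∈ L, |(i : ℝ) - (j : ℝ)| = ((∏ j ∈ L, (i - j) : ℕ) : ℝ) := by
      rw [Nat.cast_prod]
      refine Finset.prod_congr rfl (fun j hj => ?_)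
      have := hLi j hj
      rw [Nat.cast_sub this.le, abs_of_nonneg]
      have : (j : ℝ) ≤ i := by exact_mod_cast this.le
      linarith
    have inj : Set.InjOn (fun j => i - j) (L : Set ℕ) := by
      intro a ha b hb hab
      have h1 := hLi a ha
      have h2 := hLi b hb
      simp only at hab
      omega
    have e2 : ∏ j ∈ L, (i - j) = ∏ s ∈ L.image (fun j => i - j), s := (Finset.prod_image (f := fun s => s) inj).symm
    have e3 := prod_ge_factorial (L.image (fun j => i - j)) (by
      intro s hs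
      obtain ⟨j, hj, rfl⟩ := Finset.mem_image.1 hs
      have := hLi j hj
      omega)
    rw [Finset.card_image_of_injOn inj] at e3
    rw [e1, e2]
    exact_mod_cast e3
  have pU : (U.card.factorial : ℝ) ≤ ∏ j ∈ U, |(i : ℝ) - (j : ℝ)| := by
    have e1 : ∏ j ∈ U, |(i : ℝ) - (j : ℝ)| = ((∏ j ∈ U, (j - i) : ℕ) : ℝ) := by
      rw [Nat.cast_prod]
      refine Finset.prod_congr rfl (fun j hj => ?_)
      have := hUi j hj
      rw [Nat.cast_sub this.le, abs_sub_comm, abs_of_nonneg]
      have : (i : ℝ) ≤ j := by exact_mod_cast this.le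
      linarith
    have inj : Set.InjOn (fun j => j - i) (U : Set ℕ) := by
      intro a ha b hb hab
      have h1 := hUi a ha
      have h2 := hUi b hb
      simp only at hab
      omega
    have e2 : ∏ j ∈ U, (j - i) = ∏ s ∈ U.image (fun j => j - i), s := (Finset.prod_image (f := fun s => s) inj).symm
    have e3 := prod_ge_factorial (U.image (fun j => j - i)) (by
      intro s hs
      obtain ⟨j, hj, rfl⟩ := Finset.mem_image.1 hs
      have := hUi j hj
      omega)
    rw [Finset.card_image_of_injOn inj] at e3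
    rw [e1, e2]
    exact_mod_cast e3
  have hprod : ∏ j ∈ B.erase i, |(i : ℝ) - (j : ℝ)| =
      (∏ j ∈ L, |(i : ℝ) - (j : ℝ)|) * ∏ j ∈ U, |(i : ℝ) - (j : ℝ)| :=
    (Finset.prod_filter_mul_prod_filter_not _ _ _).symm
  have hB1 : 1 ≤ B.card := Finset.card_pos.2 ⟨i, hi⟩
  obtain ⟨n, hn⟩ : ∃ n, n = B.card - 1 := ⟨_, rfl⟩
  have ecast : (B.card : ℝ) - 1 = n := by rw [hn, Nat.cast_sub hB1]; simp
  rw [ecast, ← hn, hprod]
  rw [← hn] at hcard
  have h1 : (n.factorial : ℝ) ≤ 2 ^ n * (L.card.factorial * U.card.factorial) := by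
    have h2 := Nat.choose_mul_factorial_mul_factorial (n := n) (k := L.card) (by omega)
    have h3 : n - L.card = U.card := by omega
    rw [h3] at h2
    have h4 : n.choose L.card ≤ 2 ^ n := Nat.choose_le_two_pow n L.card
    have h5 : n.factorial ≤ 2 ^ n * (L.card.factorial * U.card.factorial) := by
      rw [← h2, mul_assoc]
      exact Nat.mul_le_mul_right _ h4
    exact_mod_cast h5
  have h2 : (n : ℝ) ^ n ≤ 3 ^ n * n.factorial := by
    have h3 := Real.pow_div_factorial_le_exp (n : ℝ) (Nat.cast_nonneg n) n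
    have h4 : Real.exp (n : ℝ) ≤ 3 ^ n := by
      have : Real.exp (n : ℝ) = Real.exp 1 ^ n := by rw [← Real.exp_nat_mul, mul_one]
      rw [this]
      exact pow_le_pow_left₀ (Real.exp_pos _).le (by have := Real.exp_one_lt_d9; linarith) n
    have h5 : (0 : ℝ) < n.factorial := by exact_mod_cast n.factorial_pos
    rw [div_le_iff₀ h5] at h3
    exact h3.trans (mul_le_mul_of_nonneg_right h4 h5.le)
  have h6 : (n : ℝ) ^ n ≤ 6 ^ n * (L.card.factorial * U.card.factorial) := by
    have : (6 : ℝ) ^ n = 3 ^ n * 2 ^ n := by rw [← mul_pow]; norm_num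
    rw [this, mul_assoc]
    exact h2.trans (mul_le_mul_of_nonneg_left h1 (by positivity))
  rw [div_pow, div_le_iff₀ (by positivity), mul_comm]
  refine h6.trans (mul_le_mul_of_nonneg_left ?_ (by positivity))
  exact mul_le_mul pL pU (by positivity) (Finset.prod_nonneg fun _ _ => abs_nonneg _)

end H991.MU
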